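import Pool.Agent.Helper71.AB.IBP

/-! # Project AB (MP_1ef41b_an), packet FIN -/

open MeasureTheory Set Filter Topology
open scoped ContDiff

noncomputable section

namespace Pool.Agent.Helper71.AB

open Pool.Agent.Helper24.AB Pool.Agent.Helper15.AB

lemma log_lam_pos : 0 < Real.log lam := by
  apply Real.log_pos
  unfold lam
  have : 0 ≤ Real.sqrt 5 := Real.sqrt_nonneg 5
  linarith

lemma fderiv_lin (L : ℂ →L[ℝ] ℝ) (s t : ℝ) : L (s + t * Complex.I) = s * L 1 + t * L Complex.I := by
  have e : (s + t * Complex.I : ℂ) = s • (1 : ℂ) + t • Complex.I := by simp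
  rw [e, map_add, map_smul, map_smul, smul_eq_mul, smul_eq_mul]

lemma norm_lin (s t : ℝ) : ‖(s + t * Complex.I : ℂ)‖ ^ 2 = s ^ 2 + t ^ 2 := by
  rw [← Complex.normSq_eq_norm_sq, Complex.normSq_add_mul_I]

/-- AM-GM form of Cauchy-Schwarz -/
lemma amgm (L : ℂ →L[ℝ] ℝ) (u s t M : ℝ) (hM : 0 < M) :
    -(2 * u * (L 1 * s + L Complex.I * t)) ≤ M / 2 * (u ^ 2 * (s ^ 2 + t ^ 2)) + 2 / M * ‖L‖ ^ 2 := by
  have h1 := L.le_opNorm (s + t * Complex.I)
  rw [fderiv_lin, Real.norm_eq_abs] at h1
  have h2 := norm_lin s t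
  set n := ‖(s + t * Complex.I : ℂ)‖ with hn
  have hn0 : 0 ≤ n := norm_nonneg _
  have h3 : |u * (L 1 * s + L Complex.I * t)| ≤ |u| * n * ‖L‖ := by
    rw [abs_mul]
    have : |L 1 * s + L Complex.I * t| ≤ ‖L‖ * n := by
      rw [show L 1 * s + L Complex.I * t = s * L 1 + t * L Complex.I by ring]
      exact h1
    calc |u| * |L 1 * s + L Complex.I * t| ≤ |u| * (‖L‖ * n) :=
          mul_le_mul_of_nonneg_left this (abs_nonneg u)
      _ = |u| * n * ‖L‖ := by ring
  have h4 : 2 * (|u| * n * ‖L‖) ≤ M / 2 * (u ^ 2 * n ^ 2) + 2 / M * ‖L‖ ^ 2 := by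
    have h5 : 0 ≤ (2 / M) * (M / 2 * (|u| * n) - ‖L‖) ^ 2 := by positivity
    have h6 : (2 / M) * (M / 2 * (|u| * n) - ‖L‖) ^ 2
        = M / 2 * (|u| ^ 2 * n ^ 2) + 2 / M * ‖L‖ ^ 2 - 2 * (|u| * n * ‖L‖) := by
      field_simp
      ring
    rw [sq_abs] at h6
    linarith
  rw [← h2]
  have h7 := neg_abs_le (u * (L 1 * s + L Complex.I * t))
  linarith

lemma vol_cell (b : ℝ) (hb : 0 < b) : (volume (cell b)).toReal = 2 * b * (2 * Real.pi) := by
  rw [cell_eq]
  rw [Complex.volume_preserving_equiv_real_prod.measure_preimage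
    (measurableSet_Ioo.prod measurableSet_Ico).nullMeasurableSet]
  rw [Measure.volume_eq_prod, Measure.prod_prod, Real.volume_Ioo, Real.volume_Ico,
    ENNReal.toReal_mul, ENNReal.toReal_ofReal (by linarith),
    ENNReal.toReal_ofReal (by linarith [Real.pi_pos])]
  ring

lemma cell_mono {b b' : ℝ} (h : b ≤ b') : cell b ⊆ cell b' := fun _ hw =>
  ⟨lt_of_lt_of_le hw.1 h, hw.2⟩

lemma vol_cell_lt (b : ℝ) : volume (cell b) < ⊤ := by
  rw [cell_eq]
  rw [Complex.volume_preserving_equiv_real_prod.measure_preimage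
    (measurableSet_Ioo.prod measurableSet_Ico).nullMeasurableSet]
  rw [Measure.volume_eq_prod, Measure.prod_prod, Real.volume_Ioo, Real.volume_Ico]
  exact ENNReal.mul_lt_top ENNReal.ofReal_lt_top ENNReal.ofReal_lt_top

/-- the lower bound -/
lemma lower {a c : ℝ} (ha : 0 < a) (hc : 0 < c) {G : ℂ → ℝ}
    (hG : ContDiffOn ℝ ∞ G (strip (a / 2)))
    (hGp : ∀ w ∈ strip (a / 2), G (w + 2 * Real.pi * Complex.I) = G w + Real.log lam)
    {G0 : Set ℝ} (hm : MeasurableSet G0) (hs : G0 ⊆ Ioo (-(a / 2)) (a / 2))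
    (hvol : ENNReal.ofReal c ≤ volume G0) {u : ℂ → ℝ} (hu1 : ∀ w : ℂ, w.re ∈ G0 → 1 / 2 ≤ u w)
    (hcont : Continuous (fun w => u w ^ 2 * (dS G w ^ 2 + dT G w ^ 2))) :
    (c * Real.log lam) ^ 2 / (8 * Real.pi * a)
      ≤ ∫ w in cell (a / 2), u w ^ 2 * (dS G w ^ 2 + dT G w ^ 2) := by
  have hlog := log_lam_pos
  have hpi := Real.pi_pos
  set K : ℝ := 4 * Real.pi * a / (c * Real.log lam) with hK
  have hK0 : 0 < K := by positivity
  set h1 : ℂ → ℝ := fun w => u w ^ 2 * (dS G w ^ 2 + dT G w ^ 2) with hh1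
  set h5 : ℂ → ℝ := fun w => K * h1 w + 1 / K with hh5
  have h1c : Continuous h1 := hcont
  have h5c : Continuous h5 := (continuous_const.mul h1c).add continuous_const
  have h10 : ∀ w, 0 ≤ h1 w := fun w => by simp only [hh1]; positivity
  have h50 : ∀ w, 0 ≤ h5 w := fun w => by
    have := h10 w
    simp only [hh5]; positivity
  set I : ℝ → ℝ := fun x => ∫ y in (0 : ℝ)..(2 * Real.pi), h5 (x + y * Complex.I) with hI
  have hIc : Continuous I := by
    apply intervalIntegral.continuous_parametric_intervalIntegral_of_continuous'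
    fun_prop
  have hI0 : ∀ x, 0 ≤ I x := fun x =>
    intervalIntegral.integral_nonneg Real.two_pi_pos.le (fun y _ => h50 _)
  -- the vertical integral
  have hvert : ∀ x ∈ G0, Real.log lam ≤ I x := by
    intro x hx
    have hx2 := hs hx
    have hst : ∀ y : ℝ, (x + y * Complex.I : ℂ) ∈ strip (a / 2) := by
      intro y
      show |((x + y * Complex.I : ℂ)).re| < a / 2
      have : ((x + y * Complex.I : ℂ)).re = x := by simp
      rw [this, abs_lt]
      exact ⟨hx2.1, hx2.2⟩
    have hder : ∀ y : ℝ, HasDerivAt (fun y : ℝ => G (x + y * Complex.I))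
        (dT G (x + y * Complex.I)) y := by
      intro y
      have hd : DifferentiableAt ℝ G (x + y * Complex.I) :=
        ((hG _ (hst y)).contDiffAt ((isOpen_strip _).mem_nhds (hst y))).differentiableAt (by simp)
      have hl : HasDerivAt (fun y : ℝ => (x + y * Complex.I : ℂ)) Complex.I y := by
        have := ((Complex.ofRealCLM.hasDerivAt (x := y)).mul_const Complex.I).const_add (x : ℂ)
        simpa using this
      have := hd.hasFDerivAt.comp_hasDerivAt y hl
      exact this
    have hcT : Continuous (fun y : ℝ => dT G (x + y * Complex.I)) := by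
      have h := (dir_smooth hG Complex.I).continuousOn
      rw [continuous_iff_continuousAt]
      intro y
      have h2 : ContinuousAt (dT G) (x + y * Complex.I) :=
        (h _ (hst y)).continuousAt ((isOpen_strip _).mem_nhds (hst y))
      have h3 : ContinuousAt (fun y : ℝ => (x + y * Complex.I : ℂ)) y := by fun_prop
      exact ContinuousAt.comp (f := fun y : ℝ => (x + y * Complex.I : ℂ)) h2 h3
    have hint := intervalIntegral.integral_eq_sub_of_hasDerivAt (a := 0) (b := 2 * Real.pi)
      (fun y _ => hder y) (hcT.intervalIntegrable _ _)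
    have hval : G (x + (2 * Real.pi : ℝ) * Complex.I) - G (x + (0 : ℝ) * Complex.I)
        = Real.log lam := by
      have := hGp (x + (0 : ℝ) * Complex.I) (hst 0)
      rw [show ((x : ℂ) + (0 : ℝ) * Complex.I + 2 * Real.pi * Complex.I)
        = x + (2 * Real.pi : ℝ) * Complex.I by push_cast; ring] at this
      rw [this]; ring
    rw [hval] at hint
    rw [← hint]
    apply intervalIntegral.integral_mono_on Real.two_pi_pos.le (hcT.intervalIntegrable _ _)
    · apply Continuous.intervalIntegrable
      fun_prop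
    · intro y _
      have hu := hu1 (x + y * Complex.I) (by
        have : ((x + y * Complex.I : ℂ)).re = x := by simp
        rw [this]; exact hx)
      set U := u (x + y * Complex.I) with hU
      set T := dT G (x + y * Complex.I) with hT
      set S := dS G (x + y * Complex.I) with hS
      show T ≤ K * (U ^ 2 * (S ^ 2 + T ^ 2)) + 1 / K
      have e1 : T ≤ 2 * (U * |T|) := by
        have := le_abs_self T
        nlinarith [abs_nonneg T]
      have e2 : 2 * (U * |T|) ≤ K * (U ^ 2 * T ^ 2) + 1 / K := by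
        have h5 : 0 ≤ (1 / K) * (K * (U * |T|) - 1) ^ 2 := by positivity
        have h6 : (1 / K) * (K * (U * |T|) - 1) ^ 2
            = K * (U ^ 2 * |T| ^ 2) + 1 / K - 2 * (U * |T|) := by
          field_simp
          ring
        rw [sq_abs] at h6
        linarith
      have e3 : K * (U ^ 2 * T ^ 2) ≤ K * (U ^ 2 * (S ^ 2 + T ^ 2)) := by
        apply mul_le_mul_of_nonneg_left _ hK0.le
        apply mul_le_mul_of_nonneg_left _ (sq_nonneg U)
        nlinarith [sq_nonneg S]
      linarith
  -- Fubini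
  have hcell : ∫ w in cell (a / 2), h5 w = ∫ x in Ioo (-(a / 2)) (a / 2), I x :=
    integral_cell_iter (a / 2) h5c
  have hsum : ∫ w in cell (a / 2), h5 w = K * (∫ w in cell (a / 2), h1 w)
      + 1 / K * (2 * (a / 2) * (2 * Real.pi)) := by
    have i1 : IntegrableOn (fun w => K * h1 w) (cell (a / 2)) :=
      integrable_cell _ (continuous_const.mul h1c)
    have i2 : IntegrableOn (fun _ : ℂ => 1 / K) (cell (a / 2)) :=
      integrable_cell _ continuous_const
    simp only [hh5]
    rw [integral_add i1 i2, integral_const_mul, setIntegral_const, Measure.real,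
      vol_cell _ (by positivity), smul_eq_mul]
    ring
  have hIint : IntegrableOn I (Ioo (-(a / 2)) (a / 2)) :=
    (hIc.continuousOn.integrableOn_compact isCompact_Icc).mono_set Ioo_subset_Icc_self
  have hmono : ∫ x in G0, I x ≤ ∫ x in Ioo (-(a / 2)) (a / 2), I x :=
    setIntegral_mono_set hIint (Eventually.of_forall fun x => hI0 x) hs.eventuallyLE
  have hG0fin : volume G0 < ⊤ := lt_of_le_of_lt (measure_mono hs) measure_Ioo_lt_top
  have hconst : ∫ x in G0, Real.log lam ≤ ∫ x in G0, I x := by
    apply setIntegral_mono_on (integrableOn_const hG0fin.ne) (hIint.mono_set hs) hm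
    intro x hx
    exact hvert x hx
  rw [setIntegral_const, smul_eq_mul] at hconst
  have hcv : c ≤ volume.real G0 := by
    unfold Measure.real
    exact (ENNReal.ofReal_le_iff_le_toReal hG0fin.ne).mp hvol
  have h6 : c * Real.log lam ≤ volume.real G0 * Real.log lam :=
    mul_le_mul_of_nonneg_right hcv hlog.le
  set X := ∫ w in cell (a / 2), h1 w with hX
  have h7 : c * Real.log lam ≤ K * X + 1 / K * (2 * (a / 2) * (2 * Real.pi)) := by
    rw [← hsum, hcell]; linarith
  have h8 : 1 / K * (2 * (a / 2) * (2 * Real.pi)) = c * Real.log lam / 2 := by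
    rw [hK]; field_simp; ring
  rw [h8] at h7
  have h9 : c * Real.log lam / 2 ≤ K * X := by linarith
  have h10' : (c * Real.log lam) ^ 2 / (8 * Real.pi * a) = c * Real.log lam / 2 / K := by
    rw [hK]; field_simp; ring
  rw [h10', div_le_iff₀ hK0]
  linarith

theorem fin (hIBP : S_IBP) : S_FIN := by
  intro a p ha hcap
  obtain ⟨C, c, a1, G0, v, hc, ha1, hG0m, hG0s, hG0v, hv⟩ := hcap
  have hlog := log_lam_pos
  have hpi := Real.pi_pos
  set Y : ℝ := (c * Real.log lam) ^ 2 / (8 * Real.pi * a) with hY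
  have hY0 : 0 < Y := by positivity
  refine ⟨4 * C / Y + 1, ?_⟩
  intro M G hM hG hGp hsub
  have hS := isOpen_strip (a / 2)
  have sS : ContDiffOn ℝ ∞ (dS G) (strip (a / 2)) := dir_smooth hG 1
  have sT : ContDiffOn ℝ ∞ (dT G) (strip (a / 2)) := dir_smooth hG Complex.I
  have cS := sS.continuousOn
  have cT := sT.continuousOn
  have clap : ContinuousOn (lapC G) (strip (a / 2)) := by
    have h1 := (dir_smooth sS 1).continuousOn
    have h2 := (dir_smooth sT Complex.I).continuousOn
    exact h1.add h2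
  have cg2 : ContinuousOn (fun w => dS G w ^ 2 + dT G w ^ 2) (strip (a / 2)) :=
    (cS.pow 2).add (cT.pow 2)
  -- the bound on the compact set
  obtain ⟨B, hB0, hB⟩ : ∃ B : ℝ, 0 ≤ B ∧ ∀ w ∈ Icc (-a1) a1 ×ℂ Icc 0 (2 * Real.pi),
      M * (dS G w ^ 2 + dT G w ^ 2) - lapC G w ≤ B := by
    have hcomp : IsCompact (Icc (-a1) a1 ×ℂ Icc 0 (2 * Real.pi)) :=
      isCompact_Icc.reProdIm isCompact_Icc
    have hsubs : Icc (-a1) a1 ×ℂ Icc 0 (2 * Real.pi) ⊆ strip (a / 2) := by
      rintro w ⟨hw, -⟩
      show |w.re| < a / 2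
      have : |w.re| ≤ a1 := abs_le.mpr ⟨hw.1, hw.2⟩
      linarith
    obtain ⟨B, hB⟩ := (hcomp.bddAbove_image
      (((continuousOn_const.mul cg2).sub clap).mono hsubs))
    refine ⟨max B 0, le_max_right _ _, fun w hw => ?_⟩
    exact (hB ⟨w, hw, rfl⟩).trans (le_max_left _ _)
  -- main inequality for every `n`
  have main : ∀ n : ℕ, Y ≤ 4 * C / M ^ 2 + 2 * B / M * (1 / (n + 1)) ∧ 0 ≤ C := by
    intro n
    obtain ⟨hu, hup, hu01, hu0, hC, huG, O, hO, hOp, hOv⟩ := hv n
    set u := v n with hud
    have hu2 : ∀ w, a1 ≤ |w.re| → u w ^ 2 = 0 := fun w hw => by rw [hu0 w hw]; ring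
    have c1 : Continuous (fun w => u w ^ 2 * (dS G w ^ 2 + dT G w ^ 2)) :=
      ext_cont ha1 cg2 (hu.continuous.pow 2) hu2
    have c2 : Continuous (fun w => u w ^ 2 * lapC G w) :=
      ext_cont ha1 clap (hu.continuous.pow 2) hu2
    have cDu : Continuous (fun w => fderiv ℝ u w) := hu.continuous_fderiv (by simp)
    have c3 : Continuous (fun w => 2 * u w * (dS u w * dS G w + dT u w * dT G w)) := by
      have hF : ContinuousOn (fun w => dS u w * dS G w + dT u w * dT G w) (strip (a / 2)) := by
        have d1 : Continuous (dS u) := cDu.clm_apply continuous_const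
        have d2 : Continuous (dT u) := cDu.clm_apply continuous_const
        exact (d1.continuousOn.mul cS).add (d2.continuousOn.mul cT)
      exact ext_cont ha1 hF (continuous_const.mul hu.continuous)
        (fun w hw => by rw [hu0 w hw]; ring)
    have c4 : Continuous (fun w => ‖fderiv ℝ u w‖ ^ 2) := cDu.norm.pow 2
    have i1 := integrable_cell (a / 2) c1
    have i2 := integrable_cell (a / 2) c2
    have i3 := integrable_cell (a / 2) c3
    have i4 := integrable_cell (a / 2) c4
    have i4a := integrable_cell a c4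
    set X := ∫ w in cell (a / 2), u w ^ 2 * (dS G w ^ 2 + dT G w ^ 2) with hX
    -- IBP
    have hibp : (∫ w in cell (a / 2), u w ^ 2 * lapC G w)
        + ∫ w in cell (a / 2), 2 * u w * (dS u w * dS G w + dT u w * dT G w) = 0 := by
      rw [← integral_add i2 i3]
      exact hIBP a1 (a / 2) (a / 2) (Real.log lam) G u ha1 le_rfl hG hGp hu hup hu0
    -- (2)
    have h2 : -(∫ w in cell (a / 2), 2 * u w * (dS u w * dS G w + dT u w * dT G w))
        ≤ M / 2 * X + 2 / M * C := by
      have e1 : ∫ w in cell (a / 2), -(2 * u w * (dS u w * dS G w + dT u w * dT G w))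
          ≤ ∫ w in cell (a / 2), (M / 2 * (u w ^ 2 * (dS G w ^ 2 + dT G w ^ 2))
            + 2 / M * ‖fderiv ℝ u w‖ ^ 2) := by
        apply setIntegral_mono i3.neg ((i1.const_mul _).add (i4.const_mul _))
        intro w
        exact amgm (fderiv ℝ u w) (u w) (dS G w) (dT G w) M hM
      rw [integral_neg, integral_add (i1.const_mul _) (i4.const_mul _), integral_const_mul,
        integral_const_mul] at e1
      have e2 : ∫ w in cell (a / 2), ‖fderiv ℝ u w‖ ^ 2 ≤ ∫ w in cell a, ‖fderiv ℝ u w‖ ^ 2 :=
        setIntegral_mono_set i4a (Eventually.of_forall fun w => by positivity)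
          (cell_mono (by linarith)).eventuallyLE
      have e3 : 2 / M * ∫ w in cell (a / 2), ‖fderiv ℝ u w‖ ^ 2 ≤ 2 / M * C :=
        mul_le_mul_of_nonneg_left (e2.trans hC) (by positivity)
      linarith
    have hC0 : 0 ≤ C := le_trans (setIntegral_nonneg (measurableSet_cell a)
      fun w _ => by positivity) hC
    -- (3)
    set S : Set ℂ := {w ∈ cell a | u w ≠ 0 ∧ w ∉ O} with hSd
    have hSm : MeasurableSet S := by
      have : S = cell a ∩ ({w | u w ≠ 0} ∩ Oᶜ) := by
        ext w
        simp only [hSd, mem_inter_iff, mem_compl_iff, mem_ofPred_eq]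
      rw [this]
      exact (measurableSet_cell a).inter
        (((isOpen_ne_fun hu.continuous continuous_const).measurableSet).inter
          hO.measurableSet.compl)
    have hSfin : volume S < ⊤ := lt_of_le_of_lt (measure_mono (fun w hw => hw.1)) (vol_cell_lt a)
    have h3 : M * X - ∫ w in cell (a / 2), u w ^ 2 * lapC G w ≤ B * (1 / (n + 1)) := by
      rw [hX, ← integral_const_mul, ← integral_sub (i1.const_mul _) i2]
      have iS : IntegrableOn (fun w => S.indicator (fun _ => B) w) (cell (a / 2)) := by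
        apply Integrable.integrableOn
        rw [integrable_indicator_iff hSm]
        exact integrableOn_const hSfin.ne
      have e1 : ∫ w in cell (a / 2), (M * (u w ^ 2 * (dS G w ^ 2 + dT G w ^ 2))
          - u w ^ 2 * lapC G w) ≤ ∫ w in cell (a / 2), S.indicator (fun _ => B) w := by
        apply setIntegral_mono_on ((i1.const_mul _).sub i2) iS (measurableSet_cell _)
        intro w hw
        have e : M * (u w ^ 2 * (dS G w ^ 2 + dT G w ^ 2)) - u w ^ 2 * lapC G w
            = u w ^ 2 * (M * (dS G w ^ 2 + dT G w ^ 2) - lapC G w) := by ring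
        show M * (u w ^ 2 * (dS G w ^ 2 + dT G w ^ 2)) - u w ^ 2 * lapC G w ≤ _
        rw [e]
        by_cases huw : u w = 0
        · rw [huw]
          have : 0 ≤ S.indicator (fun _ => B) w := indicator_nonneg (fun _ _ => hB0) w
          simpa using this
        · by_cases hwO : w ∈ O
          · have h5 := hsub O hO hOp w hwO hw.1
            have : 0 ≤ S.indicator (fun _ => B) w := indicator_nonneg (fun _ _ => hB0) w
            refine le_trans ?_ this
            apply mul_nonpos_of_nonneg_of_nonpos (sq_nonneg _)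
            linarith
          · have hwS : w ∈ S := ⟨cell_mono (by linarith) hw, huw, hwO⟩
            rw [indicator_of_mem hwS]
            have hre : |w.re| < a1 := by
              by_contra h
              exact huw (hu0 w (not_lt.mp h))
            rw [abs_lt] at hre
            have h5 := hB w ⟨⟨hre.1.le, hre.2.le⟩, ⟨hw.2.1, hw.2.2.le⟩⟩
            obtain ⟨h6, h7⟩ := hu01 w
            have h8 : u w ^ 2 ≤ 1 := pow_le_one₀ h6 h7
            rcases le_total 0 (M * (dS G w ^ 2 + dT G w ^ 2) - lapC G w) with h9 | h9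
            · calc u w ^ 2 * (M * (dS G w ^ 2 + dT G w ^ 2) - lapC G w)
                  ≤ 1 * (M * (dS G w ^ 2 + dT G w ^ 2) - lapC G w) :=
                    mul_le_mul_of_nonneg_right h8 h9
                _ ≤ B := by rw [one_mul]; exact h5
            · exact le_trans (mul_nonpos_of_nonneg_of_nonpos (sq_nonneg _) h9) hB0
      refine e1.trans ?_
      have e2 : ∫ w in cell (a / 2), S.indicator (fun _ => B) w
          = ∫ w in cell (a / 2) ∩ S, B := by
        rw [setIntegral_indicator hSm]
      rw [e2, setIntegral_const, smul_eq_mul]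
      have e3 : volume.real (cell (a / 2) ∩ S) ≤ 1 / (n + 1) := by
        unfold Measure.real
        apply ENNReal.toReal_le_of_le_ofReal (by positivity)
        exact (measure_mono inter_subset_right).trans hOv
      calc volume.real (cell (a / 2) ∩ S) * B ≤ 1 / (n + 1) * B :=
            mul_le_mul_of_nonneg_right e3 hB0
        _ = B * (1 / (n + 1)) := by ring
    have hlow := lower ha hc hG hGp hG0m hG0s hG0v huG c1
    refine ⟨?_, hC0⟩
    have h5 : M * X ≤ M / 2 * X + 2 / M * C + B * (1 / (n + 1)) := by linarith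
    have h6 : X ≤ 4 * C / M ^ 2 + 2 * B / M * (1 / (n + 1)) := by
      have h7 : M / 2 * X ≤ 2 / M * C + B * (1 / (n + 1)) := by linarith
      have h8 : 2 / M * (M / 2 * X) ≤ 2 / M * (2 / M * C + B * (1 / (n + 1))) :=
        mul_le_mul_of_nonneg_left h7 (by positivity)
      have e1 : 2 / M * (M / 2 * X) = X := by field_simp
      have e2 : 2 / M * (2 / M * C + B * (1 / (n + 1)))
          = 4 * C / M ^ 2 + 2 * B / M * (1 / (n + 1)) := by
        field_simp
        ring
      rw [e1, e2] at h8
      exact h8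
    exact hlow.trans h6
  -- the limit
  have hC0 : 0 ≤ C := (main 0).2
  have hlim : Y ≤ 4 * C / M ^ 2 := by
    have ht : Tendsto (fun n : ℕ => 4 * C / M ^ 2 + 2 * B / M * (1 / ((n : ℝ) + 1))) atTop
        (𝓝 (4 * C / M ^ 2 + 2 * B / M * 0)) :=
      tendsto_const_nhds.add (tendsto_const_nhds.mul tendsto_one_div_add_atTop_nhds_zero_nat)
    rw [mul_zero, add_zero] at ht
    exact ge_of_tendsto' ht (fun n => (main n).1)
  have h1 : M ^ 2 ≤ 4 * C / Y := by
    rw [le_div_iff₀ (by positivity)] at hlim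
    rw [le_div_iff₀ hY0]
    linarith
  nlinarith [sq_nonneg (M - 1)]

end Pool.Agent.Helper71.AB
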