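import Pool.Agent.Helper15.AB.GoalsD

/-! # Project AB (MP_1ef41b_an), packet IBP -/

open MeasureTheory Set Filter Topology
open scoped ContDiff

noncomputable section

namespace Pool.Agent.Helper71.AB

open Pool.Agent.Helper24.AB Pool.Agent.Helper15.AB

lemma isOpen_strip (a : ℝ) : IsOpen (strip a) := by
  have : strip a = (fun w : ℂ => |w.re|) ⁻¹' Iio a := rfl
  rw [this]
  exact isOpen_Iio.preimage (continuous_abs.comp Complex.continuous_re)

lemma ev_out {a1 : ℝ} {w : ℂ} (h : a1 < |w.re|) : ∀ᶠ z in 𝓝 w, a1 ≤ |z.re| := by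
  have : ContinuousAt (fun z : ℂ => |z.re|) w :=
    (continuous_abs.comp Complex.continuous_re).continuousAt
  filter_upwards [this.eventually (lt_mem_nhds h)] with z hz
  exact hz.le

/-- extension by zero, smooth -/
lemma ext_smooth {a1 a' : ℝ} (h1 : a1 < a') {F : ℂ → ℝ} (hF : ContDiffOn ℝ ∞ F (strip a'))
    {u : ℂ → ℝ} (hu : ContDiff ℝ ∞ u) (hu0 : ∀ w, a1 ≤ |w.re| → u w = 0) :
    ContDiff ℝ ∞ (fun w => u w * F w) := by
  rw [contDiff_iff_contDiffAt]
  intro w
  by_cases hw : |w.re| < a'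
  · exact hu.contDiffAt.mul ((hF w hw).contDiffAt ((isOpen_strip a').mem_nhds hw))
  · have hw' : a1 < |w.re| := lt_of_lt_of_le h1 (not_lt.mp hw)
    have : (fun w => u w * F w) =ᶠ[𝓝 w] fun _ => 0 := by
      filter_upwards [ev_out hw'] with z hz
      rw [hu0 z hz, zero_mul]
    exact contDiffAt_const.congr_of_eventuallyEq this

/-- extension by zero, continuous -/
lemma ext_cont {a1 a' : ℝ} (h1 : a1 < a') {F : ℂ → ℝ} (hF : ContinuousOn F (strip a'))
    {u : ℂ → ℝ} (hu : Continuous u) (hu0 : ∀ w, a1 ≤ |w.re| → u w = 0) :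
    Continuous (fun w => u w * F w) := by
  rw [continuous_iff_continuousAt]
  intro w
  by_cases hw : |w.re| < a'
  · exact hu.continuousAt.mul ((hF w hw).continuousAt ((isOpen_strip a').mem_nhds hw))
  · have hw' : a1 < |w.re| := lt_of_lt_of_le h1 (not_lt.mp hw)
    have : (fun w => u w * F w) =ᶠ[𝓝 w] fun _ => 0 := by
      filter_upwards [ev_out hw'] with z hz
      rw [hu0 z hz, zero_mul]
    exact continuousAt_const.congr this.symm

/-- directional derivatives are smooth -/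
lemma dir_smooth {a' : ℝ} {G : ℂ → ℝ} (hG : ContDiffOn ℝ ∞ G (strip a')) (e : ℂ) :
    ContDiffOn ℝ ∞ (fun w => fderiv ℝ G w e) (strip a') :=
  (hG.fderiv_of_isOpen (isOpen_strip a') (by simp)).clm_apply contDiffOn_const

lemma dir_smooth' {v : ℂ → ℝ} (hv : ContDiff ℝ ∞ v) (e : ℂ) :
    ContDiff ℝ ∞ (fun w => fderiv ℝ v w e) :=
  (hv.fderiv_right (m := ∞) (by simp)).clm_apply contDiff_const

/-- the integral over a cell -/
lemma cell_eq (b : ℝ) : cell b = Complex.measurableEquivRealProd ⁻¹'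
    (Ioo (-b) b ×ˢ Ico 0 (2 * Real.pi)) := by
  ext w
  simp only [cell, mem_ofPred_eq, mem_preimage, mem_prod, mem_Ioo, mem_Ico, abs_lt,
    Complex.measurableEquivRealProd_apply]

lemma measurableSet_cell (b : ℝ) : MeasurableSet (cell b) := by
  rw [cell_eq]
  exact Complex.measurableEquivRealProd.measurable
    (measurableSet_Ioo.prod measurableSet_Ico)

lemma integral_cell (b : ℝ) (h : ℂ → ℝ) :
    ∫ w in cell b, h w = ∫ q in Ioo (-b) b ×ˢ Ico 0 (2 * Real.pi), h (q.1 + q.2 * Complex.I) := by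
  rw [cell_eq]
  have hmp := Complex.volume_preserving_equiv_real_prod
  rw [← hmp.setIntegral_preimage_emb Complex.measurableEquivRealProd.measurableEmbedding
    (fun q : ℝ × ℝ => h (q.1 + q.2 * Complex.I)) _]
  congr 1
  funext w
  simp [Complex.measurableEquivRealProd_apply, Complex.re_add_im]

lemma cell_subset_rect (b : ℝ) : cell b ⊆ Icc (-b) b ×ℂ Icc 0 (2 * Real.pi) := by
  intro w hw
  obtain ⟨h1, h2, h3⟩ := hw
  rw [abs_lt] at h1
  exact ⟨⟨h1.1.le, h1.2.le⟩, ⟨h2, h3.le⟩⟩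

lemma integrable_cell (b : ℝ) {h : ℂ → ℝ} (hh : Continuous h) : IntegrableOn h (cell b) := by
  have hc : IsCompact (Icc (-b) b ×ℂ Icc 0 (2 * Real.pi)) := isCompact_Icc.reProdIm isCompact_Icc
  exact (hh.continuousOn.integrableOn_compact hc).mono_set (cell_subset_rect b)

/-- Fubini on the cell -/
lemma integral_cell_iter (b : ℝ) {h : ℂ → ℝ} (hh : Continuous h) :
    ∫ w in cell b, h w = ∫ x in Ioo (-b) b, ∫ y in (0 : ℝ)..(2 * Real.pi),
      h (x + y * Complex.I) := by
  rw [integral_cell]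
  have hcont : Continuous (fun q : ℝ × ℝ => h (q.1 + q.2 * Complex.I)) := by fun_prop
  have hint : IntegrableOn (fun q : ℝ × ℝ => h (q.1 + q.2 * Complex.I))
      (Ioo (-b) b ×ˢ Ico 0 (2 * Real.pi)) (volume.prod volume) := by
    have hc : IsCompact (Icc (-b) b ×ˢ Icc (0 : ℝ) (2 * Real.pi)) := isCompact_Icc.prod isCompact_Icc
    exact (hcont.continuousOn.integrableOn_compact hc).mono_set
      (prod_mono Ioo_subset_Icc_self Ico_subset_Icc_self)
  rw [Measure.volume_eq_prod, setIntegral_prod _ hint]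
  refine integral_congr_ae (Eventually.of_forall fun x => ?_)
  simp only
  rw [intervalIntegral.integral_of_le Real.two_pi_pos.le, integral_Ico_eq_integral_Ioc]

/-- the divergence theorem on the cell -/
lemma div_cell {b a1 : ℝ} (h1 : a1 < b) (hb : 0 < b) {P Q : ℂ → ℝ} (hP : ContDiff ℝ ∞ P)
    (hQ : ContDiff ℝ ∞ Q) (hP0 : ∀ w, a1 ≤ |w.re| → P w = 0)
    (hQp : ∀ w, Q (w + 2 * Real.pi * Complex.I) = Q w) :
    ∫ w in cell b, (dS P w + dT Q w) = 0 := by
  have cP : Continuous (dS P) := (dir_smooth' hP 1).continuous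
  have cQ : Continuous (dT Q) := (dir_smooth' hQ Complex.I).continuous
  rw [integral_cell_iter b (h := fun w => dS P w + dT Q w) (cP.add cQ)]
  rw [← integral_Ioc_eq_integral_Ioo, ← intervalIntegral.integral_of_le (by linarith)]
  -- the two functions on `ℝ × ℝ`
  set ι : ℝ × ℝ → ℂ := fun q => (q.1 : ℂ) + q.2 * Complex.I with hι
  set Lι : ℝ × ℝ →L[ℝ] ℂ := Complex.ofRealCLM.comp (ContinuousLinearMap.fst ℝ ℝ ℝ)
        + (Complex.ofRealCLM.comp (ContinuousLinearMap.snd ℝ ℝ ℝ)).smulRight Complex.I with hLι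
  have hιc : Continuous ι := by fun_prop
  have hline : ∀ q : ℝ × ℝ, HasFDerivAt ι Lι q := by
    intro q
    have d1 : HasFDerivAt (fun q : ℝ × ℝ => (q.1 : ℂ))
        (Complex.ofRealCLM.comp (ContinuousLinearMap.fst ℝ ℝ ℝ)) q :=
      Complex.ofRealCLM.hasFDerivAt.comp q (ContinuousLinearMap.fst ℝ ℝ ℝ).hasFDerivAt
    have d2 : HasFDerivAt (fun q : ℝ × ℝ => (q.2 : ℂ) * Complex.I)
        ((Complex.ofRealCLM.comp (ContinuousLinearMap.snd ℝ ℝ ℝ)).smulRight Complex.I) q := by
      have := ((Complex.ofRealCLM.comp (ContinuousLinearMap.snd ℝ ℝ ℝ)).smulRight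
        Complex.I).hasFDerivAt (x := q)
      exact this
    exact d1.add d2
  have dP : ∀ q, HasFDerivAt (fun q => P (ι q)) ((fderiv ℝ P (ι q)).comp Lι) q := fun q =>
    (hP.differentiable (by simp) (ι q)).hasFDerivAt.comp q (hline q)
  have dQ : ∀ q, HasFDerivAt (fun q => Q (ι q)) ((fderiv ℝ Q (ι q)).comp Lι) q := fun q =>
    (hQ.differentiable (by simp) (ι q)).hasFDerivAt.comp q (hline q)
  have e1 : ∀ q : ℝ × ℝ, ((fderiv ℝ P (ι q)).comp Lι) (1, 0) = dS P (ι q) := by
    intro q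
    simp [hLι, dS]
  have e2 : ∀ q : ℝ × ℝ, ((fderiv ℝ Q (ι q)).comp Lι) (0, 1) = dT Q (ι q) := by
    intro q
    simp [hLι, dT]
  have hdiv := integral2_divergence_prod_of_hasFDerivAt_off_countable
    (fun q => P (ι q)) (fun q => Q (ι q)) (fun q => (fderiv ℝ P (ι q)).comp Lι)
    (fun q => (fderiv ℝ Q (ι q)).comp Lι) (-b) 0 b (2 * Real.pi) ∅ countable_empty
    (hP.continuous.comp hιc).continuousOn (hQ.continuous.comp hιc).continuousOn
    (fun q _ => dP q) (fun q _ => dQ q) (by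
      have hc : Continuous (fun q : ℝ × ℝ => dS P (ι q) + dT Q (ι q)) :=
        (cP.comp hιc).add (cQ.comp hιc)
      have hint : IntegrableOn (fun q : ℝ × ℝ => dS P (ι q) + dT Q (ι q))
          (uIcc (-b) b ×ˢ uIcc 0 (2 * Real.pi)) volume :=
        hc.continuousOn.integrableOn_compact (isCompact_uIcc.prod isCompact_uIcc)
      refine hint.congr_fun (fun q _ => ?_) (measurableSet_uIcc.prod measurableSet_uIcc)
      simp only [e1, e2])
  simp only [e1, e2] at hdiv
  have hdiv' : (∫ x in (-b)..b, ∫ y in (0 : ℝ)..(2 * Real.pi),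
      (dS P (x + y * Complex.I) + dT Q (x + y * Complex.I))) = _ := hdiv
  rw [hdiv']
  have z1 : ∀ y : ℝ, P (ι (b, y)) = 0 := fun y => hP0 _ (by
    simp only [hι, Complex.add_re, Complex.ofReal_re, Complex.mul_re, Complex.I_re, mul_zero,
      Complex.ofReal_im, Complex.I_im, mul_one, sub_self, add_zero]
    rw [abs_of_pos hb]; exact h1.le)
  have z2 : ∀ y : ℝ, P (ι (-b, y)) = 0 := fun y => hP0 _ (by
    simp only [hι, Complex.add_re, Complex.ofReal_re, Complex.mul_re, Complex.I_re, mul_zero,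
      Complex.ofReal_im, Complex.I_im, mul_one, sub_self, add_zero]
    rw [abs_neg, abs_of_pos hb]; exact h1.le)
  have z3 : ∀ x : ℝ, Q (ι (x, 2 * Real.pi)) = Q (ι (x, 0)) := by
    intro x
    have := hQp (ι (x, 0))
    rw [← this]
    congr 1
    simp [hι]
  simp only [z1, z2, z3]
  simp

/-- the derivative of a periodic function -/
lemma per_dir {a' c : ℝ} {G : ℂ → ℝ}
    (hp : ∀ w ∈ strip a', G (w + 2 * Real.pi * Complex.I) = G w + c) {w : ℂ} (hw : w ∈ strip a')
    (e : ℂ) : fderiv ℝ G (w + 2 * Real.pi * Complex.I) e = fderiv ℝ G w e := by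
  have hev : (fun z => G (z + 2 * Real.pi * Complex.I)) =ᶠ[𝓝 w] fun z => G z + c := by
    filter_upwards [(isOpen_strip a').mem_nhds hw] with z hz
    exact hp z hz
  have h1 := hev.fderiv_eq (𝕜 := ℝ)
  rw [fderiv_comp_add_right, fderiv_add_const] at h1
  rw [h1]

theorem ibp : S_IBP := by
  intro a1 a' b c G v ha1 ha' hG hGp hv hvp hv0
  rcases le_or_gt b 0 with hb | hb
  · have : cell b = ∅ := by
      ext w
      simp only [cell, mem_ofPred_eq, mem_empty_iff_false, iff_false]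
      rintro ⟨h1, -⟩
      have := abs_nonneg w.re
      linarith
    rw [this]; simp
  set P : ℂ → ℝ := fun w => v w ^ 2 * fderiv ℝ G w 1 with hPd
  set Q : ℂ → ℝ := fun w => v w ^ 2 * fderiv ℝ G w Complex.I with hQd
  have hv2 : ∀ w, a1 ≤ |w.re| → v w ^ 2 = 0 := fun w hw => by rw [hv0 w hw]; ring
  have sP : ContDiff ℝ ∞ P := ext_smooth ha1 (dir_smooth hG 1) (hv.pow 2) hv2
  have sQ : ContDiff ℝ ∞ Q := ext_smooth ha1 (dir_smooth hG Complex.I) (hv.pow 2) hv2
  have hP0 : ∀ w, a1 ≤ |w.re| → P w = 0 := fun w hw => by simp [hPd, hv0 w hw]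
  have hQp : ∀ w, Q (w + 2 * Real.pi * Complex.I) = Q w := by
    intro w
    simp only [hQd]
    rw [hvp w]
    by_cases hw : w ∈ strip a'
    · rw [per_dir hGp hw]
    · have : v w = 0 := hv0 w (ha1.le.trans (not_lt.mp hw))
      rw [this]; ring
  have hmain := div_cell (lt_of_lt_of_le ha1 ha') hb sP sQ hP0 hQp
  rw [← hmain]
  refine setIntegral_congr_fun (measurableSet_cell b) (fun w _ => ?_)
  show v w ^ 2 * lapC G w + 2 * v w * (dS v w * dS G w + dT v w * dT G w) = dS P w + dT Q w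
  by_cases hw : w ∈ strip a'
  · -- inside the strip
    have hvd : DifferentiableAt ℝ v w := hv.differentiable (by simp) w
    have hG1 : DifferentiableAt ℝ (fun w => fderiv ℝ G w 1) w :=
      ((dir_smooth hG 1 w hw).contDiffAt ((isOpen_strip a').mem_nhds hw)).differentiableAt (by simp)
    have hG2 : DifferentiableAt ℝ (fun w => fderiv ℝ G w Complex.I) w :=
      ((dir_smooth hG Complex.I w hw).contDiffAt
        ((isOpen_strip a').mem_nhds hw)).differentiableAt (by simp)
    have hv2d : HasFDerivAt (fun w => v w ^ 2) ((2 * v w) • fderiv ℝ v w) w := by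
      have := hvd.hasFDerivAt.pow 2
      simpa using this
    have dP : HasFDerivAt P (v w ^ 2 • fderiv ℝ (fun w => fderiv ℝ G w 1) w
        + fderiv ℝ G w 1 • (2 * v w) • fderiv ℝ v w) w := hv2d.mul hG1.hasFDerivAt
    have dQ : HasFDerivAt Q (v w ^ 2 • fderiv ℝ (fun w => fderiv ℝ G w Complex.I) w
        + fderiv ℝ G w Complex.I • (2 * v w) • fderiv ℝ v w) w := hv2d.mul hG2.hasFDerivAt
    have e1 : dS P w = v w ^ 2 * fderiv ℝ (fun w => fderiv ℝ G w 1) w 1
        + fderiv ℝ G w 1 * (2 * v w * fderiv ℝ v w 1) := by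
      unfold dS
      rw [dP.fderiv]
      simp
    have e2 : dT Q w = v w ^ 2 * fderiv ℝ (fun w => fderiv ℝ G w Complex.I) w Complex.I
        + fderiv ℝ G w Complex.I * (2 * v w * fderiv ℝ v w Complex.I) := by
      unfold dT
      rw [dQ.fderiv]
      simp
    rw [e1, e2]
    unfold lapC dS dT
    ring
  · -- outside
    have hw1 : a1 < |w.re| := lt_of_lt_of_le ha1 (not_lt.mp hw)
    have hvw : v w = 0 := hv0 w hw1.le
    have zP : P =ᶠ[𝓝 w] fun _ => 0 := by
      filter_upwards [ev_out hw1] with z hz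
      exact hP0 z hz
    have zQ : Q =ᶠ[𝓝 w] fun _ => 0 := by
      filter_upwards [ev_out hw1] with z hz
      simp [hQd, hv0 z hz]
    have e1 : dS P w = 0 := by
      unfold dS
      rw [zP.fderiv_eq]; simp
    have e2 : dT Q w = 0 := by
      unfold dT
      rw [zQ.fderiv_eq]; simp
    rw [e1, e2, hvw]
    ring

end Pool.Agent.Helper71.AB
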