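import Pool.Agent.Helper15.AB.GoalsD

/-! # Project AB (MP_1ef41b_an), packet OPT -/

open MeasureTheory Set Filter Topology
open scoped ContDiff

noncomputable section

namespace Pool.Agent.Helper71.AB

open Pool.Agent.Helper24.AB Pool.Agent.Helper15.AB

/-- the directional derivative is differentiable -/
lemma diff_dir {f : ℂ → ℝ} {w : ℂ} (hf : ContDiffAt ℝ 2 f w) (e : ℂ) :
    DifferentiableAt ℝ (fun w => fderiv ℝ f w e) w := by
  have h1 : ContDiffAt ℝ 1 (fderiv ℝ f) w := hf.fderiv_right (by norm_num)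
  exact (h1.differentiableAt (by norm_num)).clm_apply (differentiableAt_const e)

lemma ev_diff {f : ℂ → ℝ} {w : ℂ} (hf : ContDiffAt ℝ 2 f w) :
    ∀ᶠ z in 𝓝 w, DifferentiableAt ℝ f z := by
  have h := hf.eventually (by simp)
  filter_upwards [h] with z hz
  exact hz.differentiableAt (by norm_num)

lemma DD_mul {f g : ℂ → ℝ} {w : ℂ} (hf : ContDiffAt ℝ 2 f w) (hg : ContDiffAt ℝ 2 g w) (e : ℂ) :
    fderiv ℝ (fun w => fderiv ℝ (fun w => f w * g w) w e) w e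
      = fderiv ℝ (fun w => fderiv ℝ f w e) w e * g w + 2 * (fderiv ℝ f w e * fderiv ℝ g w e)
        + f w * fderiv ℝ (fun w => fderiv ℝ g w e) w e := by
  have hev : (fun z => fderiv ℝ (fun w => f w * g w) z e) =ᶠ[𝓝 w]
      fun z => f z * fderiv ℝ g z e + g z * fderiv ℝ f z e := by
    filter_upwards [ev_diff hf, ev_diff hg] with z h1 h2
    rw [fderiv_fun_mul h1 h2]
    simp
  rw [hev.fderiv_eq]
  have df := hf.differentiableAt (by norm_num)
  have dg := hg.differentiableAt (by norm_num)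
  have d1 := df.hasFDerivAt.mul (diff_dir hg e).hasFDerivAt
  have d2 := dg.hasFDerivAt.mul (diff_dir hf e).hasFDerivAt
  have d3 : HasFDerivAt (fun z => f z * fderiv ℝ g z e + g z * fderiv ℝ f z e)
    ((f w • fderiv ℝ (fun w => (fderiv ℝ g w) e) w + (fderiv ℝ g w) e • fderiv ℝ f w)
      + (g w • fderiv ℝ (fun w => (fderiv ℝ f w) e) w + (fderiv ℝ f w) e • fderiv ℝ g w)) w :=
    d1.add d2
  rw [d3.fderiv]
  simp
  ring

lemma D_comp {f : ℂ → ℝ} {w : ℂ} {φ : ℝ → ℝ} {c : ℝ} (hf : DifferentiableAt ℝ f w)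
    (hφ : HasDerivAt φ c (f w)) (e : ℂ) :
    fderiv ℝ (fun w => φ (f w)) w e = c * fderiv ℝ f w e := by
  have h := hφ.comp_hasFDerivAt w hf.hasFDerivAt
  rw [show (fun w => φ (f w)) = φ ∘ f from rfl, h.fderiv]
  simp

lemma DD_comp {f : ℂ → ℝ} {w : ℂ} {φ φ' : ℝ → ℝ} {c : ℝ} (hf : ContDiffAt ℝ 2 f w)
    (hφ : ∀ᶠ x in 𝓝 (f w), HasDerivAt φ (φ' x) x) (hφ' : HasDerivAt φ' c (f w)) (e : ℂ) :
    fderiv ℝ (fun w => fderiv ℝ (fun w => φ (f w)) w e) w e
      = c * (fderiv ℝ f w e) ^ 2 + φ' (f w) * fderiv ℝ (fun w => fderiv ℝ f w e) w e := by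
  have df := hf.differentiableAt (by norm_num)
  have hev : (fun z => fderiv ℝ (fun w => φ (f w)) z e) =ᶠ[𝓝 w]
      fun z => φ' (f z) * fderiv ℝ f z e := by
    filter_upwards [ev_diff hf, df.continuousAt.eventually hφ] with z h1 h2
    exact D_comp h1 h2 e
  rw [hev.fderiv_eq]
  have d1 : HasFDerivAt (fun z => φ' (f z)) (c • fderiv ℝ f w) w :=
    hφ'.comp_hasFDerivAt w df.hasFDerivAt
  have d2 := d1.mul (diff_dir hf e).hasFDerivAt
  have d3 : HasFDerivAt (fun z => φ' (f z) * fderiv ℝ f z e)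
    (φ' (f w) • fderiv ℝ (fun w => fderiv ℝ f w e) w + fderiv ℝ f w e • c • fderiv ℝ f w) w := d2
  rw [d3.fderiv]
  simp
  ring

theorem opt : S_OPT := by
  intro ee N w₀ he0 he1 hN hpos hV
  set a : ℝ := dS N w₀ with ha
  set b : ℝ := dT N w₀ with hb
  set L : ℝ := lapC N w₀ with hL
  have h1e : 0 < 1 - ee := by linarith
  -- the expansion of the hypothesis
  have key : ∀ V : ℂ, L + 2 * ee * (a * V.re - b * V.im)
      - ee * (1 - ee) * N w₀ * (V.re ^ 2 + V.im ^ 2) ≤ 0 := by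
    intro V
    have h := hV V
    set ℓ : ℂ → ℝ := fun w => 1 + (V * (w - w₀)).re with hℓ
    have hℓs : ContDiff ℝ 2 ℓ := by
      have : ContDiff ℝ 2 (fun w : ℂ => (V * (w - w₀)).re) :=
        Complex.reCLM.contDiff.comp (contDiff_const.mul (contDiff_id.sub contDiff_const))
      exact contDiff_const.add this
    have hℓ0 : ℓ w₀ = 1 := by simp [hℓ]
    have hℓd : ∀ z e : ℂ, fderiv ℝ ℓ z e = (V * e).re := by
      intro z e
      have h1 : HasFDerivAt (fun w : ℂ => V * (w - w₀)) (V • (1 : ℂ →L[ℝ] ℂ)) z := by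
        have := ((hasFDerivAt_id (𝕜 := ℝ) z).sub_const w₀).const_mul V
        exact this
      have h2 : HasFDerivAt ℓ (Complex.reCLM.comp (V • (1 : ℂ →L[ℝ] ℂ))) z := by
        have := (Complex.reCLM.hasFDerivAt.comp z h1).const_add 1
        exact this
      rw [h2.fderiv]
      simp
    have hℓdd : ∀ z e : ℂ, fderiv ℝ (fun w => fderiv ℝ ℓ w e) z e = 0 := by
      intro z e
      have : (fun w => fderiv ℝ ℓ w e) = fun _ => (V * e).re := by
        funext w; exact hℓd w e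
      rw [this]
      simp
    -- the power
    have hφ : ∀ᶠ x in 𝓝 (ℓ w₀), HasDerivAt (fun x : ℝ => x ^ ee) (ee * x ^ (ee - 1)) x := by
      have : ∀ᶠ x in 𝓝 (ℓ w₀), (0 : ℝ) < x := by
        rw [hℓ0]; exact lt_mem_nhds one_pos
      filter_upwards [this] with x hx
      exact Real.hasDerivAt_rpow_const (Or.inl hx.ne')
    have hφ' : HasDerivAt (fun x : ℝ => ee * x ^ (ee - 1)) (ee * (ee - 1)) (ℓ w₀) := by
      rw [hℓ0]
      have := (Real.hasDerivAt_rpow_const (x := 1) (p := ee - 1) (Or.inl one_ne_zero)).const_mul ee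
      simpa using this
    set g : ℂ → ℝ := fun w => (ℓ w) ^ ee with hg
    have hgs : ContDiffAt ℝ 2 g w₀ := by
      apply ContDiffAt.rpow_const_of_ne hℓs.contDiffAt
      rw [hℓ0]; exact one_ne_zero
    have hg0 : g w₀ = 1 := by simp [hg, hℓ0]
    have hgd : ∀ e : ℂ, fderiv ℝ g w₀ e = ee * (V * e).re := by
      intro e
      have := D_comp (φ := fun x : ℝ => x ^ ee) (hℓs.differentiable (by norm_num) w₀)
        hφ.self_of_nhds e
      rw [hℓ0, Real.one_rpow, hℓd] at this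
      rw [show g = fun w => (fun x : ℝ => x ^ ee) (ℓ w) from rfl, this]
      ring
    have hgdd : ∀ e : ℂ, fderiv ℝ (fun w => fderiv ℝ g w e) w₀ e
        = ee * (ee - 1) * (V * e).re ^ 2 := by
      intro e
      have := DD_comp (φ := fun x : ℝ => x ^ ee) (φ' := fun x : ℝ => ee * x ^ (ee - 1))
        hℓs.contDiffAt hφ hφ' e
      rw [hℓd, hℓdd, mul_zero, add_zero] at this
      exact this
    have hexp : lapC (fun w => N w * g w) w₀ = L + 2 * ee * (a * V.re - b * V.im)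
      - ee * (1 - ee) * N w₀ * (V.re ^ 2 + V.im ^ 2) := by
      have e1 := DD_mul hN hgs 1
      have e2 := DD_mul hN hgs Complex.I
      rw [hgd, hgdd, hg0] at e1 e2
      have r1 : (V * 1).re = V.re := by simp
      have r2 : (V * Complex.I).re = -V.im := by simp
      rw [r1] at e1
      rw [r2] at e2
      show fderiv ℝ (fun w => fderiv ℝ (fun w => N w * g w) w 1) w₀ 1
        + fderiv ℝ (fun w => fderiv ℝ (fun w => N w * g w) w Complex.I) w₀ Complex.I = _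
      rw [e1, e2, hL, ha, hb]
      unfold lapC dS dT
      ring
    have h' : lapC (fun w => N w * g w) w₀ ≤ 0 := h
    rw [hexp] at h'
    exact h'
  have hN0 : 0 < N w₀ := hpos
  -- the optimal choice
  have hopt : L + ee / (1 - ee) * ((a ^ 2 + b ^ 2) / N w₀) ≤ 0 := by
    have h := key ⟨a / ((1 - ee) * N w₀), -(b / ((1 - ee) * N w₀))⟩
    simp only at h
    have e : L + 2 * ee * (a * (a / ((1 - ee) * N w₀)) - b * (-(b / ((1 - ee) * N w₀))))
      - ee * (1 - ee) * N w₀ * ((a / ((1 - ee) * N w₀)) ^ 2 + (-(b / ((1 - ee) * N w₀))) ^ 2)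
      = L + ee / (1 - ee) * ((a ^ 2 + b ^ 2) / N w₀) := by
      have := hN0.ne'
      have := h1e.ne'
      field_simp
      ring
    rw [e] at h
    exact h
  -- `G`
  have hφ : ∀ᶠ x in 𝓝 (N w₀), HasDerivAt (fun x : ℝ => -(ee⁻¹ * Real.log x)) (-(ee⁻¹ * x⁻¹)) x := by
    filter_upwards [lt_mem_nhds hN0] with x hx
    exact ((Real.hasDerivAt_log hx.ne').const_mul ee⁻¹).neg
  have hφ' : HasDerivAt (fun x : ℝ => -(ee⁻¹ * x⁻¹)) (ee⁻¹ * (N w₀ ^ 2)⁻¹) (N w₀) := by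
    have := ((hasDerivAt_inv hN0.ne').const_mul ee⁻¹).neg
    refine this.congr_deriv ?_
    ring
  have g1 : ∀ e : ℂ, fderiv ℝ (fun w => -(ee⁻¹ * Real.log (N w))) w₀ e
      = -(ee⁻¹ * (N w₀)⁻¹) * fderiv ℝ N w₀ e := fun e =>
    D_comp (φ := fun x : ℝ => -(ee⁻¹ * Real.log x)) (hN.differentiableAt (by norm_num))
      hφ.self_of_nhds e
  have g2 : ∀ e : ℂ, fderiv ℝ (fun w => fderiv ℝ (fun w => -(ee⁻¹ * Real.log (N w))) w e) w₀ e
      = ee⁻¹ * (N w₀ ^ 2)⁻¹ * (fderiv ℝ N w₀ e) ^ 2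
        + -(ee⁻¹ * (N w₀)⁻¹) * fderiv ℝ (fun w => fderiv ℝ N w e) w₀ e := fun e =>
    DD_comp (φ := fun x : ℝ => -(ee⁻¹ * Real.log x)) (φ' := fun x : ℝ => -(ee⁻¹ * x⁻¹)) hN hφ hφ' e
  have e1 : dS (fun w => -(ee⁻¹ * Real.log (N w))) w₀ = -(ee⁻¹ * (N w₀)⁻¹) * a := g1 1
  have e2 : dT (fun w => -(ee⁻¹ * Real.log (N w))) w₀ = -(ee⁻¹ * (N w₀)⁻¹) * b := g1 Complex.I
  have e3 : lapC (fun w => -(ee⁻¹ * Real.log (N w))) w₀
      = ee⁻¹ * (N w₀ ^ 2)⁻¹ * (a ^ 2 + b ^ 2) - ee⁻¹ * (N w₀)⁻¹ * L := by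
    show fderiv ℝ (fun w => fderiv ℝ (fun w => -(ee⁻¹ * Real.log (N w))) w 1) w₀ 1
        + fderiv ℝ (fun w => fderiv ℝ (fun w => -(ee⁻¹ * Real.log (N w))) w Complex.I) w₀ Complex.I
        = _
    rw [g2, g2, ha, hb, hL]
    unfold lapC dS dT
    ring
  rw [e1, e2, e3]
  have hfin : ee⁻¹ * (N w₀ ^ 2)⁻¹ * (a ^ 2 + b ^ 2) - ee⁻¹ * (N w₀)⁻¹ * L
      - ee / (1 - ee) * ((-(ee⁻¹ * (N w₀)⁻¹) * a) ^ 2 + (-(ee⁻¹ * (N w₀)⁻¹) * b) ^ 2)
      = ee⁻¹ * (N w₀)⁻¹ * (-(L + ee / (1 - ee) * ((a ^ 2 + b ^ 2) / N w₀))) := by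
    have := hN0.ne'
    have := h1e.ne'
    have := he0.ne'
    field_simp
    ring
  have : 0 ≤ ee⁻¹ * (N w₀)⁻¹ * (-(L + ee / (1 - ee) * ((a ^ 2 + b ^ 2) / N w₀))) := by
    apply mul_nonneg (by positivity)
    linarith
  linarith

end Pool.Agent.Helper71.AB
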