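import Pool.Agent.Helper15.AB.GoalsE

/-! Project AB (MP_1ef41b_an), module GEO, packet TALG: the algebraic inequality (3.1). -/

open MeasureTheory Set Filter Topology
open scoped ContDiff

noncomputable section

namespace Pool.Agent.Helper71.AB.TALG

open Pool.Agent.Helper24.AB Pool.Agent.Helper15.AB

/-- the square root bound -/
lemma rootb (s u R F : ℝ) (hs : 0 < s) (hR : 0 ≤ R) (hF : F = s ^ 2 * u ^ 2 + R) (hF0 : 0 < F) :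
    max u 0 * (F * Real.sqrt F) ≤ s ^ 3 * u ^ 4 + 3 / 2 * s * R * u ^ 2 + R ^ 2 * (s⁻¹ / 2) := by
  by_cases hu : u ≤ 0
  · rw [max_eq_right hu, zero_mul]; positivity
  · push Not at hu
    rw [max_eq_left hu.le]
    have h1 : s * u * Real.sqrt F ≤ s ^ 2 * u ^ 2 + R / 2 := by
      apply (pow_le_pow_iff_left₀ (by positivity) (by positivity) two_ne_zero).1
      rw [mul_pow, Real.sq_sqrt hF0.le, hF]
      nlinarith [sq_nonneg R]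
    have h2 : u * (F * Real.sqrt F) = s⁻¹ * (F * (s * u * Real.sqrt F)) := by
      field_simp
    have h3 : s⁻¹ * (F * (s * u * Real.sqrt F)) ≤ s⁻¹ * (F * (s ^ 2 * u ^ 2 + R / 2)) := by
      gcongr
    rw [h2]
    refine h3.trans (le_of_eq ?_)
    rw [hF]
    field_simp
    ring

lemma texb (a A k x s s1 s2 u v l e : ℝ) (he : e = a ^ 2 - x ^ 2) (he0 : 0 < e) :
    Tex a A k x s s1 s2 u v l ≤ 4 * s ^ 3 * s2 * u ^ 4 +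
      4 * A ^ 2 * u ^ 2 * (v ^ 2 + l ^ 2) *
        (m1 a A k x s s1 s2 - 24 * k ^ 2 * s ^ 2 * e - 6 * k ^ 2 * A * s * e) -
      4 * (4 * A ^ 2) ^ 2 * a ^ 2 * (v ^ 2 + l ^ 2) ^ 2 +
      (4 * k ^ 2 * s ^ 4 * u ^ 4 + 24 * k ^ 2 * (s ^ 2 * u ^ 2) * (4 * A ^ 2 * e * (v ^ 2 + l ^ 2)) +
        8 * k ^ 2 * (4 * A ^ 2 * e * (v ^ 2 + l ^ 2)) ^ 2) := by
  have hx2 : x ^ 2 = a ^ 2 - e := by rw [he]; ring
  have hk : 8 * k ^ 2 * (s ^ 2 * u ^ 2 + 4 * A ^ 2 * e * (v ^ 2 + l ^ 2)) *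
      (s ^ 2 * u ^ 2 + 4 * A ^ 2 * e * v ^ 2) - (2 * k * (s ^ 2 * u ^ 2 - 4 * A ^ 2 * e * v ^ 2)) ^ 2 ≤
      4 * k ^ 2 * s ^ 4 * u ^ 4 + 24 * k ^ 2 * (s ^ 2 * u ^ 2) * (4 * A ^ 2 * e * (v ^ 2 + l ^ 2)) +
        8 * k ^ 2 * (4 * A ^ 2 * e * (v ^ 2 + l ^ 2)) ^ 2 := by
    set P := s ^ 2 * u ^ 2 with hP
    set V := 4 * A ^ 2 * e * v ^ 2 with hV
    set L := 4 * A ^ 2 * e * l ^ 2 with hL
    have hVL : 4 * A ^ 2 * e * (v ^ 2 + l ^ 2) = V + L := by rw [hV, hL]; ring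
    have hP0 : 0 ≤ P := by positivity
    have hV0 : 0 ≤ V := by positivity
    have hL0 : 0 ≤ L := by positivity
    rw [hVL]
    have h1 : 4 * k ^ 2 * s ^ 4 * u ^ 4 + 24 * k ^ 2 * P * (V + L) + 8 * k ^ 2 * (V + L) ^ 2 -
        (8 * k ^ 2 * (P + (V + L)) * (P + V) - (2 * k * (P - V)) ^ 2) =
        k ^ 2 * (16 * P * L + 4 * V ^ 2 + 8 * V * L + 8 * L ^ 2) := by
      rw [hP]; ring
    have h2 : 0 ≤ k ^ 2 * (16 * P * L + 4 * V ^ 2 + 8 * V * L + 8 * L ^ 2) := by positivity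
    linarith
  have hT : Tex a A k x s s1 s2 u v l = 4 * s ^ 3 * s2 * u ^ 4 +
      4 * A ^ 2 * u ^ 2 * (v ^ 2 + l ^ 2) *
        (m1 a A k x s s1 s2 - 24 * k ^ 2 * s ^ 2 * e - 6 * k ^ 2 * A * s * e) -
      4 * (4 * A ^ 2) ^ 2 * a ^ 2 * (v ^ 2 + l ^ 2) ^ 2 +
      (8 * k ^ 2 * (s ^ 2 * u ^ 2 + 4 * A ^ 2 * e * (v ^ 2 + l ^ 2)) *
        (s ^ 2 * u ^ 2 + 4 * A ^ 2 * e * v ^ 2) -
        (2 * k * (s ^ 2 * u ^ 2 - 4 * A ^ 2 * e * v ^ 2)) ^ 2) := by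
    unfold Tex m1
    rw [← he]
    have ha : a ^ 2 = e + x ^ 2 := by rw [he]; ring
    rw [ha]
    ring
  rw [hT]
  linarith

theorem talg : S_TALG := by
  intro a A k x s s1 s2 u v l ha hA hk hx hs hF hm hlast
  set e := a ^ 2 - x ^ 2 with he
  have he0 : 0 < e := by
    have := sq_lt_sq' (by linarith [neg_abs_le x, abs_lt.1 hx]) (abs_lt.1 hx).2
    rw [he]; linarith
  have ht := texb a A k x s s1 s2 u v l e he he0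
  set g := v ^ 2 + l ^ 2 with hg
  have hg0 : 0 ≤ g := by positivity
  have hr := rootb s u (4 * A ^ 2 * e * g) (s ^ 2 * u ^ 2 + 4 * A ^ 2 * e * g) hs (by positivity)
    rfl hF
  have h1 : 4 * k ^ 2 * A * (max u 0 * ((s ^ 2 * u ^ 2 + 4 * A ^ 2 * e * g) *
      Real.sqrt (s ^ 2 * u ^ 2 + 4 * A ^ 2 * e * g))) ≤ 4 * k ^ 2 * A *
      (s ^ 3 * u ^ 4 + 3 / 2 * s * (4 * A ^ 2 * e * g) * u ^ 2 + (4 * A ^ 2 * e * g) ^ 2 *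
        (s⁻¹ / 2)) := mul_le_mul_of_nonneg_left hr (by positivity)
  have h2 : 4 * A ^ 2 * u ^ 2 * g * m1 a A k x s s1 s2 ≤
      4 * A ^ 2 * u ^ 2 * g * (-(9 / 10) * A ^ 2) := mul_le_mul_of_nonneg_left hm (by positivity)
  have h3 : (4 * A ^ 2) ^ 2 * g ^ 2 * (-4 * a ^ 2 + 8 * k ^ 2 * e ^ 2 + 2 * k ^ 2 * A * e ^ 2 / s) ≤
      (4 * A ^ 2) ^ 2 * g ^ 2 * (-3 * a ^ 2) := mul_le_mul_of_nonneg_left hlast (by positivity)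
  rw [div_eq_mul_inv] at h3
  have e1 : 4 * k ^ 2 * A * (max u 0 * ((s ^ 2 * u ^ 2 + 4 * A ^ 2 * e * g) *
      Real.sqrt (s ^ 2 * u ^ 2 + 4 * A ^ 2 * e * g))) = 4 * k ^ 2 * A * max u 0 *
    ((s ^ 2 * u ^ 2 + 4 * A ^ 2 * e * g) * Real.sqrt (s ^ 2 * u ^ 2 + 4 * A ^ 2 * e * g)) := by ring
  rw [e1] at h1
  generalize hZ : 4 * k ^ 2 * A * max u 0 *
    ((s ^ 2 * u ^ 2 + 4 * A ^ 2 * e * g) * Real.sqrt (s ^ 2 * u ^ 2 + 4 * A ^ 2 * e * g)) = Z at h1 ⊢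
  generalize Tex a A k x s s1 s2 u v l = TT at ht ⊢
  generalize m1 a A k x s s1 s2 = mm at ht h2
  have e2 : -(4 * s ^ 3 * (-(s2 + k ^ 2 * s + k ^ 2 * A)) * u ^ 4 +
      18 / 5 * A ^ 4 * u ^ 2 * g + 48 * A ^ 4 * a ^ 2 * g ^ 2) -
      ((4 * s ^ 3 * s2 * u ^ 4 + 4 * A ^ 2 * u ^ 2 * g * (mm - 24 * k ^ 2 * s ^ 2 * e - 6 * k ^ 2 * A * s * e) -
      4 * (4 * A ^ 2) ^ 2 * a ^ 2 * g ^ 2 +
      (4 * k ^ 2 * s ^ 4 * u ^ 4 + 24 * k ^ 2 * (s ^ 2 * u ^ 2) * (4 * A ^ 2 * e * g) +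
        8 * k ^ 2 * (4 * A ^ 2 * e * g) ^ 2)) + 4 * k ^ 2 * A *
      (s ^ 3 * u ^ 4 + 3 / 2 * s * (4 * A ^ 2 * e * g) * u ^ 2 + (4 * A ^ 2 * e * g) ^ 2 *
        (s⁻¹ / 2))) =
      (4 * A ^ 2 * u ^ 2 * g * (-(9 / 10) * A ^ 2) - 4 * A ^ 2 * u ^ 2 * g * mm) +
      ((4 * A ^ 2) ^ 2 * g ^ 2 * (-3 * a ^ 2) - (4 * A ^ 2) ^ 2 * g ^ 2 *
        (-4 * a ^ 2 + 8 * k ^ 2 * e ^ 2 + 2 * k ^ 2 * A * e ^ 2 * s⁻¹)) := by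
    ring
  linarith

end Pool.Agent.Helper71.AB.TALG
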