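import Pool.Agent.Helper95.AB.GoalsW

/-! Project AB (MP_1ef41b_an), module WT, packet WPOS: size of the weight for positive alpha. -/

open MeasureTheory Set Filter Topology
open scoped ContDiff

noncomputable section

namespace Pool.Agent.Helper71.AB.WPOS

open Pool.Agent.Helper24.AB Pool.Agent.Helper95.AB

lemma log_lam_pos : 0 < Real.log lam := by
  apply Real.log_pos
  unfold lam
  have : 0 ≤ Real.sqrt 5 := Real.sqrt_nonneg _
  linarith

lemma caseA (N : ℕ) (S R C₃ Ll : ℝ) (hR : 1 ≤ R) (hC : 0 ≤ C₃) (hS : 0 ≤ S)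
    (hL : 0 < Ll) (hSN : 100 * N * Ll ≤ S) (u v l M W y e : ℝ) (he : 0 ≤ e)
    (hu : 0 < u) (hM : M = 2 + |u * v| + l ^ 2) (hW : W = 2 + |u| + |v| + |l|)
    (hy : 0 ≤ y) (hy1 : (100 * Ll)⁻¹ * Real.log u - C₃ * Real.log M ≤ y)
    (hv : v ^ 2 ≤ R * (1 + u)) :
    N * Real.log W ≤ N * (Real.log (2 * (3 + R)) + (Real.log (8 * R) + 1)) +
      (S * y + N * e + (2 * N + S * C₃) * Real.log M) := by
  have hN : (0:ℝ) ≤ N := Nat.cast_nonneg N
  have hM2 : 2 ≤ M := by rw [hM]; linarith [abs_nonneg (u * v), sq_nonneg l]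
  have hW2 : 2 ≤ W := by rw [hW]; linarith [abs_nonneg u, abs_nonneg v, abs_nonneg l]
  have hlM : 0 ≤ Real.log M := Real.log_nonneg (by linarith)
  have hau : |u| = u := abs_of_pos hu
  have hlabs : |l| ≤ 1 + l ^ 2 := by
    rw [← sq_abs l]; nlinarith [sq_nonneg (|l| - 1), abs_nonneg l]
  have hlM' : |l| ≤ M := by rw [hM]; linarith [abs_nonneg (u * v)]
  have hRu : 1 ≤ R * (1 + u) := by nlinarith
  have hk1 : 0 ≤ Real.log (2 * (3 + R)) := Real.log_nonneg (by linarith)
  have hk2 : 0 ≤ Real.log (8 * R) := Real.log_nonneg (by linarith)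
  have h1 : |v| ≤ R * (1 + u) := by
    have h2 : |v| ^ 2 ≤ (R * (1 + u)) ^ 2 := by
      rw [sq_abs]; nlinarith
    exact (pow_le_pow_iff_left₀ (abs_nonneg _) (by linarith) two_ne_zero).1 h2
  set x := max 1 u with hx
  have hm1 : 1 ≤ x := le_max_left _ _
  have hm2 : u ≤ x := le_max_right _ _
  have h2 : W ≤ (2 * (3 + R)) * x * M := by
    rw [hW, hau]
    have h3 : 1 + u ≤ 2 * x := by linarith
    have h4 : 2 + u + |v| + |l| ≤ (2 + R) * (1 + u) + M := by linarith
    have h5 : (2 + R) * (1 + u) ≤ (2 + R) * (2 * x) := mul_le_mul_of_nonneg_left h3 (by linarith)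
    have h6 : (2 + R) * (2 * x) * 1 ≤ (2 + R) * (2 * x) * M :=
      mul_le_mul_of_nonneg_left (by linarith) (by positivity)
    have h7 : 1 * M ≤ 2 * x * M := mul_le_mul_of_nonneg_right (by linarith) (by linarith)
    have h8 : (2 * (3 + R)) * x * M = (2 + R) * (2 * x) * M + 2 * x * M := by ring
    linarith
  have h3 : Real.log W ≤ Real.log (2 * (3 + R)) + Real.log x + Real.log M := by
    refine (Real.log_le_log (by linarith) h2).trans (le_of_eq ?_)
    rw [Real.log_mul (by positivity) (by linarith), Real.log_mul (by positivity) (by positivity)]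
  have h4 : N * Real.log x - S * C₃ * Real.log M ≤ S * y := by
    by_cases hu1 : u ≤ 1
    · rw [hx, max_eq_left hu1, Real.log_one, mul_zero]
      have : 0 ≤ S * C₃ * Real.log M := by positivity
      have : 0 ≤ S * y := by positivity
      linarith
    · push Not at hu1
      rw [hx, max_eq_right hu1.le]
      have hlu : 0 ≤ Real.log u := Real.log_nonneg hu1.le
      have h5 : S * ((100 * Ll)⁻¹ * Real.log u - C₃ * Real.log M) ≤ S * y :=
        mul_le_mul_of_nonneg_left hy1 hS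
      have h6 : (N : ℝ) ≤ S * (100 * Ll)⁻¹ := by
        rw [← div_eq_mul_inv, le_div_iff₀ (by positivity)]
        linarith
      have h7 : N * Real.log u ≤ S * (100 * Ll)⁻¹ * Real.log u :=
        mul_le_mul_of_nonneg_right h6 hlu
      have h8 : S * ((100 * Ll)⁻¹ * Real.log u - C₃ * Real.log M) =
        S * (100 * Ll)⁻¹ * Real.log u - S * C₃ * Real.log M := by ring
      linarith
  have h5 : N * Real.log W ≤ N * (Real.log (2 * (3 + R)) + Real.log x + Real.log M) :=
    mul_le_mul_of_nonneg_left h3 hN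
  have h6 : 0 ≤ N * e := mul_nonneg hN he
  have h7 : 0 ≤ N * (Real.log (8 * R) + 1) := by positivity
  have h8 : 0 ≤ N * Real.log M := by positivity
  have h9 : (2 * N + S * C₃) * Real.log M = 2 * (N * Real.log M) + S * C₃ * Real.log M := by ring
  have h10 : N * (Real.log (2 * (3 + R)) + (Real.log (8 * R) + 1)) =
    N * Real.log (2 * (3 + R)) + N * (Real.log (8 * R) + 1) := by ring
  have h11 : N * (Real.log (2 * (3 + R)) + Real.log x + Real.log M) =
    N * Real.log (2 * (3 + R)) + N * Real.log x + N * Real.log M := by ring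
  rw [h9, h10]
  rw [h11] at h5
  linarith

lemma caseB (N : ℕ) (S R C₃ : ℝ) (hR : 1 ≤ R) (hC : 0 ≤ C₃) (hS : 0 ≤ S)
    (u v l M W y q e : ℝ) (hu : 0 < u) (hM : M = 2 + |u * v| + l ^ 2)
    (hW : W = 2 + |u| + |v| + |l|) (hy : 0 ≤ y) (hq : q * (R * (1 + u)) = v ^ 2)
    (hv : R * (1 + u) < v ^ 2) (hq1 : 1 ≤ q) (he : Real.log q - 1 ≤ e) :
    N * Real.log W ≤ N * (Real.log (2 * (3 + R)) + (Real.log (8 * R) + 1)) +
      (S * y + N * e + (2 * N + S * C₃) * Real.log M) := by
  have hN : (0:ℝ) ≤ N := Nat.cast_nonneg N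
  have hM2 : 2 ≤ M := by rw [hM]; linarith [abs_nonneg (u * v), sq_nonneg l]
  have hW2 : 2 ≤ W := by rw [hW]; linarith [abs_nonneg u, abs_nonneg v, abs_nonneg l]
  have hlM : 0 ≤ Real.log M := Real.log_nonneg (by linarith)
  have hau : |u| = u := abs_of_pos hu
  have hlabs : |l| ≤ 1 + l ^ 2 := by
    rw [← sq_abs l]; nlinarith [sq_nonneg (|l| - 1), abs_nonneg l]
  have hlM' : |l| ≤ M := by rw [hM]; linarith [abs_nonneg (u * v)]
  have hRu : 1 ≤ R * (1 + u) := by nlinarith
  have hk1 : 0 ≤ Real.log (2 * (3 + R)) := Real.log_nonneg (by linarith)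
  have hk2 : 0 ≤ Real.log (8 * R) := Real.log_nonneg (by linarith)
  have hv1 : 1 < |v| := by
    have h2 : (1:ℝ) ^ 2 < |v| ^ 2 := by rw [sq_abs]; linarith
    exact (pow_lt_pow_iff_left₀ zero_le_one (abs_nonneg _) two_ne_zero).1 h2
  have huM : u ≤ M := by
    have h2 : u * 1 ≤ u * |v| := mul_le_mul_of_nonneg_left hv1.le hu.le
    have h3 : |u * v| = u * |v| := by rw [abs_mul, hau]
    rw [hM, h3]; linarith [sq_nonneg l]
  have h2 : W ≤ 4 * M * |v| := by
    rw [hW, hau]
    have h3 : M * 1 ≤ M * |v| := mul_le_mul_of_nonneg_left hv1.le (by linarith)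
    have h4 : 1 * |v| ≤ M * |v| := mul_le_mul_of_nonneg_right (by linarith) (abs_nonneg _)
    linarith
  have h3 : Real.log W ≤ Real.log 4 + Real.log M + Real.log |v| := by
    refine (Real.log_le_log (by linarith) h2).trans (le_of_eq ?_)
    rw [Real.log_mul (by positivity) (by linarith), Real.log_mul (by positivity) (by positivity)]
  have h4 : Real.log |v| ≤ Real.log (q * (R * (2 * M))) := by
    apply Real.log_le_log (by linarith)
    have h6 : |v| * 1 ≤ |v| * |v| := mul_le_mul_of_nonneg_left hv1.le (abs_nonneg _)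
    have h7 : |v| * |v| = v ^ 2 := by rw [← sq_abs]; ring
    have h8 : q * (R * (1 + u)) ≤ q * (R * (2 * M)) := by
      apply mul_le_mul_of_nonneg_left _ (by linarith)
      apply mul_le_mul_of_nonneg_left _ (by linarith)
      linarith
    linarith
  have h5 : Real.log (q * (R * (2 * M))) = Real.log q + (Real.log R + (Real.log 2 + Real.log M)) := by
    rw [Real.log_mul (by positivity) (by positivity), Real.log_mul (by positivity) (by positivity),
      Real.log_mul (by positivity) (by positivity)]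
  have h6 : Real.log (8 * R) = Real.log 4 + Real.log 2 + Real.log R := by
    rw [← Real.log_mul (by norm_num) (by norm_num), ← Real.log_mul (by norm_num) (by positivity)]
    norm_num
  have h8 : Real.log W ≤ Real.log (8 * R) + 1 + 2 * Real.log M + e := by linarith
  have h9 : N * Real.log W ≤ N * (Real.log (8 * R) + 1 + 2 * Real.log M + e) :=
    mul_le_mul_of_nonneg_left h8 hN
  have h10 : 0 ≤ N * Real.log (2 * (3 + R)) := by positivity
  have h11 : 0 ≤ S * y := by positivity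
  have h12 : 0 ≤ S * C₃ * Real.log M := by positivity
  have h13 : (2 * N + S * C₃) * Real.log M = 2 * (N * Real.log M) + S * C₃ * Real.log M := by ring
  have h14 : N * (Real.log (8 * R) + 1 + 2 * Real.log M + e) =
    N * (Real.log (8 * R) + 1) + 2 * (N * Real.log M) + N * e := by ring
  have h15 : N * (Real.log (2 * (3 + R)) + (Real.log (8 * R) + 1)) =
    N * Real.log (2 * (3 + R)) + N * (Real.log (8 * R) + 1) := by ring
  rw [h13, h15]
  rw [h14] at h9
  linarith

lemma upper (N : ℕ) (S N₂ Ll : ℝ) (hN₂0 : 0 ≤ N₂) (hS : 0 ≤ S)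
    (u v l M W y e : ℝ) (hM : M = 2 + |u * v| + l ^ 2)
    (hW : W = 2 + |u| + |v| + |l|) (hy2 : y ≤ Real.log W / Ll + 2) (he : e ≤ 2 * Real.log W) :
    S * y + N * e + N₂ * Real.log M ≤
      (2 * S + N₂ * Real.log 3) + (S / Ll + 2 * N + 2 * N₂) * Real.log W := by
  have hN : (0:ℝ) ≤ N := Nat.cast_nonneg N
  have hM2 : 2 ≤ M := by rw [hM]; linarith [abs_nonneg (u * v), sq_nonneg l]
  have hW2 : 2 ≤ W := by rw [hW]; linarith [abs_nonneg u, abs_nonneg v, abs_nonneg l]
  have h1 : S * y ≤ S * (Real.log W / Ll + 2) := mul_le_mul_of_nonneg_left hy2 hS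
  have h3 : Real.log M ≤ Real.log 3 + 2 * Real.log W := by
    have h4 : M ≤ 3 * W ^ 2 := by
      rw [hM, hW, abs_mul]
      have h5 : l ^ 2 = |l| ^ 2 := (sq_abs l).symm
      rw [h5]
      have a1 := abs_nonneg u
      have a2 := abs_nonneg v
      have a3 := abs_nonneg l
      have e1 : 3 * (2 + |u| + |v| + |l|) ^ 2 - (2 + |u| * |v| + |l| ^ 2) =
        10 + 3 * |u| ^ 2 + 3 * |v| ^ 2 + 2 * |l| ^ 2 + 12 * |u| + 12 * |v| + 12 * |l| +
          5 * (|u| * |v|) + 6 * (|u| * |l|) + 6 * (|v| * |l|) := by ring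
      have e2 : 0 ≤ 10 + 3 * |u| ^ 2 + 3 * |v| ^ 2 + 2 * |l| ^ 2 + 12 * |u| + 12 * |v| + 12 * |l| +
          5 * (|u| * |v|) + 6 * (|u| * |l|) + 6 * (|v| * |l|) := by positivity
      linarith
    refine (Real.log_le_log (by linarith) h4).trans (le_of_eq ?_)
    rw [Real.log_mul (by norm_num) (by positivity), Real.log_pow]; norm_num
  have h4 : N * e ≤ N * (2 * Real.log W) := mul_le_mul_of_nonneg_left he hN
  have h5 : N₂ * Real.log M ≤ N₂ * (Real.log 3 + 2 * Real.log W) :=
    mul_le_mul_of_nonneg_left h3 hN₂0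
  have h6 : (S / Ll + 2 * N + 2 * N₂) * Real.log W =
    S * (Real.log W / Ll) + N * (2 * Real.log W) + N₂ * (2 * Real.log W) := by ring
  rw [h6]
  linarith

lemma pow_exp {W : ℝ} (hW : 0 < W) (n : ℕ) : W ^ n = Real.exp (n * Real.log W) := by
  rw [mul_comm, ← Real.rpow_def_of_pos hW, Real.rpow_natCast]

theorem wpos : S_WPOS := by
  intro N S R C₃ ell hR hC hS hSN e0 e1 e2 e3
  set Ll := Real.log lam with hLl
  have hL : 0 < Ll := log_lam_pos
  set N₂ : ℝ := 2 * N + S * C₃ with hN₂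
  have hN₂0 : 0 ≤ N₂ := by positivity
  set K : ℝ := N * (Real.log (2 * (3 + R)) + (Real.log (8 * R) + 1)) with hK
  set K' : ℝ := 2 * S + N₂ * Real.log 3 with hK'
  have hk1 : 0 ≤ Real.log (2 * (3 + R)) := Real.log_nonneg (by linarith)
  have hk2 : 0 ≤ Real.log (8 * R) := Real.log_nonneg (by linarith)
  have hk3 : 0 ≤ Real.log 3 := Real.log_nonneg (by norm_num)
  have hK0 : 0 ≤ K := by positivity
  have hK'0 : 0 ≤ K' := by positivity
  refine ⟨N₂, Real.exp (K + K'), ⌈S / Ll + 2 * N + 2 * N₂⌉₊, hN₂0, ?_⟩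
  intro J t y hα hy hy1 hy2
  set u := uF J.1 t with hu
  set v := vF J.1 t with hv
  have hu0 : 0 < u := by
    rw [hu]; unfold uF uf; positivity
  have huv : u * v = alp J.1 * alp' J.1 := by
    rw [hu, hv]; unfold uF uf vF vf
    rw [mul_mul_mul_comm, ← Real.exp_add, add_neg_cancel, Real.exp_zero, mul_one]
  have hMM : MJ J.1 = 2 + |u * v| + (J.1 2 : ℝ) ^ 2 := by rw [huv]; rfl
  have hWW : WF J.1 t = 2 + |u| + |v| + |(J.1 2 : ℝ)| := rfl
  have hW2 : 2 ≤ WF J.1 t := by
    rw [hWW]; linarith [abs_nonneg u, abs_nonneg v, abs_nonneg (J.1 2 : ℝ)]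
  have hW0 : 0 < WF J.1 t := by linarith
  have hRu : 1 ≤ R * (1 + u) := by nlinarith
  set q := v ^ 2 / (R * (1 + u)) with hq
  have hqe : q * (R * (1 + u)) = v ^ 2 := by
    rw [hq, div_mul_cancel₀ _ (by linarith : R * (1 + u) ≠ 0)]
  have c1 : N * Real.log (WF J.1 t) ≤ K + (S * y + N * ell q + N₂ * Real.log (MJ J.1)) := by
    by_cases hv2 : v ^ 2 ≤ R * (1 + u)
    · exact caseA N S R C₃ Ll hR hC hS hL hSN u v _ _ _ y (ell q) (e0 _) hu0 hMM hWW hy hy1 hv2
    · push Not at hv2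
      have hq1 : 1 ≤ q := by
        rw [hq, le_div_iff₀ (by linarith)]; linarith
      exact caseB N S R C₃ hR hC hS u v _ _ _ y q (ell q) hu0 hMM hWW hy hqe hv2 hq1 (e2 q hq1)
  have c2 : S * y + N * ell q + N₂ * Real.log (MJ J.1) ≤
      K' + (S / Ll + 2 * N + 2 * N₂) * Real.log (WF J.1 t) := by
    have he : ell q ≤ 2 * Real.log (WF J.1 t) := by
      by_cases hq1 : q ≤ 1
      · rw [e1 q hq1]
        have := Real.log_nonneg (show 1 ≤ WF J.1 t by linarith)
        linarith
      · push Not at hq1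
        refine (e3 q hq1.le).trans ?_
        have h3 : q ≤ (WF J.1 t) ^ 2 := by
          rw [hq, div_le_iff₀ (by linarith)]
          have h4 : |v| ≤ WF J.1 t := by rw [hWW]; linarith [abs_nonneg u, abs_nonneg (J.1 2 : ℝ)]
          have h5 : v ^ 2 ≤ (WF J.1 t) ^ 2 := by
            rw [← sq_abs v]; exact pow_le_pow_left₀ (abs_nonneg _) h4 2
          have h6 : (WF J.1 t) ^ 2 * 1 ≤ (WF J.1 t) ^ 2 * (R * (1 + u)) :=
            mul_le_mul_of_nonneg_left hRu (sq_nonneg _)
          linarith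
        refine (Real.log_le_log (by linarith) h3).trans (le_of_eq ?_)
        rw [Real.log_pow]; norm_num
    exact upper N S N₂ Ll hN₂0 hS u v _ _ _ y (ell q) hMM hWW hy2 he
  constructor
  · rw [← Real.exp_add, pow_exp hW0]
    apply Real.exp_le_exp.2
    linarith
  · rw [pow_exp hW0, ← Real.exp_add]
    apply Real.exp_le_exp.2
    have h2 : (S / Ll + 2 * N + 2 * N₂) * Real.log (WF J.1 t) ≤
        (⌈S / Ll + 2 * N + 2 * N₂⌉₊ : ℝ) * Real.log (WF J.1 t) :=
      mul_le_mul_of_nonneg_right (Nat.le_ceil _) (Real.log_nonneg (by linarith))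
    linarith

end Pool.Agent.Helper71.AB.WPOS
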